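import Mathlib
import Pool.Agent.H52.Cov

set_option autoImplicit false
open Pool.Agent.H52.Cov

namespace Pool.Agent.Results.MP_cc5630_nt.ThetaLog

/-- M(k) has order of growth log k. -/
theorem result :
    ∃ c C : ℝ, 0 < c ∧ c ≤ C ∧ ∃ k₀ : ℕ, ∀ k : ℕ, k₀ ≤ k →
      c * Real.log k ≤ M k ∧ M k ≤ C * Real.log k :=
  ⟨1 / 24, 2, by norm_num, by norm_num, 21 ^ 4, main⟩

end Pool.Agent.Results.MP_cc5630_nt.ThetaLog
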